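import Pool.Agent.TH70.SC4.S3

set_option autoImplicit false
set_option linter.unusedSectionVars false
set_option linter.unusedVariables false

/-! # The crossing replacement for a circuit of length four -/

namespace Pool.Agent.TH70.SC4

open Finset
open Pool.Agent.TH499.TF (Joins Ad N3 Dbl G5 NoC HasTD Grow Closed pw phi)
open Pool.Agent.TH462.SC

/-- connected sets of nodes -/
def Con (n : ℕ) (par : ℕ → ℕ) (S : ℕ → Prop) : Prop :=
  ∀ i j, j < i → i < n → S i → S j → S (par i)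

section

variable {n : ℕ} {par : ℕ → ℕ}

theorem Con.union (h0 : ∀ i, 0 < i → i < n → par i < i) {S T : ℕ → Prop} (hS : Con n par S)
    (hT : Con n par T) (hb : ∃ b, b < n ∧ S b ∧ T b) : Con n par fun i => S i ∨ T i := by
  classical
  obtain ⟨hb1, hb2, hb3⟩ := Nat.find_spec hb
  have hmin := fun m => @Nat.find_min' _ _ hb m
  generalize Nat.find hb = b at hb1 hb2 hb3 hmin
  have key : ∀ i j, j < i → i < n → (S i ∧ T j) ∨ (T i ∧ S j) → S (par i) ∨ T (par i) := by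
    intro i j hji hi h
    rcases Nat.lt_trichotomy b i with hbi | hbi | hbi
    · rcases h with ⟨h1, h2⟩ | ⟨h1, h2⟩
      · exact Or.inl (hS i b hbi hi h1 hb2)
      · exact Or.inr (hT i b hbi hi h1 hb3)
    · subst hbi
      rcases h with ⟨h1, h2⟩ | ⟨h1, h2⟩
      · exact Or.inr (hT b j hji hi hb3 h2)
      · exact Or.inl (hS b j hji hi hb2 h2)
    · exfalso
      have h7 := h0 b (by omega) hb1
      rcases h with ⟨h1, h2⟩ | ⟨h1, h2⟩
      · have h5 := hS b i hbi hb1 hb2 h1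
        have h6 := hT b j (by omega) hb1 hb3 h2
        have := hmin (par b) ⟨by omega, h5, h6⟩
        omega
      · have h5 := hT b i hbi hb1 hb3 h1
        have h6 := hS b j (by omega) hb1 hb2 h2
        have := hmin (par b) ⟨by omega, h6, h5⟩
        omega
  intro i j hji hi h1 h2
  rcases h1 with h1 | h1 <;> rcases h2 with h2 | h2
  · exact Or.inl (hS i j hji hi h1 h2)
  · exact key i j hji hi (Or.inl ⟨h1, h2⟩)
  · exact key i j hji hi (Or.inr ⟨h1, h2⟩)
  · exact Or.inr (hT i j hji hi h1 h2)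

theorem Con.inter {S T : ℕ → Prop} (hS : Con n par S) (hT : Con n par T) :
    Con n par fun i => S i ∧ T i :=
  fun i j hji hi h1 h2 => ⟨hS i j hji hi h1.1 h2.1, hT i j hji hi h1.2 h2.2⟩

/-- the larger root lies in both sets -/
theorem root_mem (h0 : ∀ i, 0 < i → i < n → par i < i) {S T : ℕ → Prop} (hS : Con n par S)
    (hT : Con n par T) (hb : ∃ b, b < n ∧ S b ∧ T b) {r s : ℕ} (hr : T r)
    (hmr : ∀ j, j < n → T j → r ≤ j) (hs : S s) (hsr : s ≤ r) : S r := by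
  classical
  obtain ⟨hb1, hb2, hb3⟩ := Nat.find_spec hb
  have hmin := fun m => @Nat.find_min' _ _ hb m
  generalize Nat.find hb = b at hb1 hb2 hb3 hmin
  have h1 := hmr b hb1 hb3
  rcases Nat.eq_or_lt_of_le h1 with h | h
  · rw [h]; exact hb2
  · exfalso
    have h5 := hS b s (by omega) hb1 hb2 hs
    have h6 := hT b r h hb1 hb3 hr
    have h7 := h0 b (by omega) hb1
    have := hmin (par b) ⟨by omega, h5, h6⟩
    omega

theorem exists_root {S : ℕ → Prop} (h : ∃ b, b < n ∧ S b) :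
    ∃ r, r < n ∧ S r ∧ ∀ j, j < n → S j → r ≤ j := by
  classical
  exact ⟨Nat.find h, (Nat.find_spec h).1, (Nat.find_spec h).2, fun j hj hSj =>
    Nat.find_min' h ⟨hj, hSj⟩⟩

/-- three pairwise intersecting connected sets have a common node -/
theorem helly (h0 : ∀ i, 0 < i → i < n → par i < i) {S T U : ℕ → Prop} (hS : Con n par S)
    (hT : Con n par T) (hU : Con n par U) (hST : ∃ b, b < n ∧ S b ∧ T b)
    (hTU : ∃ b, b < n ∧ T b ∧ U b) (hSU : ∃ b, b < n ∧ S b ∧ U b) :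
    ∃ b, b < n ∧ S b ∧ T b ∧ U b := by
  have sw : ∀ {A B : ℕ → Prop}, (∃ b, b < n ∧ A b ∧ B b) → ∃ b, b < n ∧ B b ∧ A b :=
    fun ⟨b, h1, h2, h3⟩ => ⟨b, h1, h3, h2⟩
  obtain ⟨r, hr, hr1, hr2⟩ := exists_root (n := n) (S := S) (hST.imp fun b h => ⟨h.1, h.2.1⟩)
  obtain ⟨s, hs, hs1, hs2⟩ := exists_root (n := n) (S := T) (hST.imp fun b h => ⟨h.1, h.2.2⟩)
  obtain ⟨t, ht, ht1, ht2⟩ := exists_root (n := n) (S := U) (hTU.imp fun b h => ⟨h.1, h.2.2⟩)
  rcases (by omega : (s ≤ r ∧ t ≤ r) ∨ (r ≤ s ∧ t ≤ s) ∨ (r ≤ t ∧ s ≤ t)) with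
    ⟨h1, h2⟩ | ⟨h1, h2⟩ | ⟨h1, h2⟩
  · exact ⟨r, hr, hr1, root_mem h0 hT hS (sw hST) hr1 hr2 hs1 h1,
      root_mem h0 hU hS (sw hSU) hr1 hr2 ht1 h2⟩
  · exact ⟨s, hs, root_mem h0 hS hT hST hs1 hs2 hr1 h1, hs1,
      root_mem h0 hU hT (sw hTU) hs1 hs2 ht1 h2⟩
  · exact ⟨t, ht, root_mem h0 hS hU hSU ht1 ht2 hr1 h1, root_mem h0 hT hU hTU ht1 ht2 hs1 h2, ht1⟩

/-- a circuit of four connected sets has a chord -/
theorem chord (h0 : ∀ i, 0 < i → i < n → par i < i) {S T U W : ℕ → Prop} (hS : Con n par S)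
    (hT : Con n par T) (hU : Con n par U) (hW : Con n par W) (hST : ∃ b, b < n ∧ S b ∧ T b)
    (hTU : ∃ b, b < n ∧ T b ∧ U b) (hUW : ∃ b, b < n ∧ U b ∧ W b)
    (hWS : ∃ b, b < n ∧ W b ∧ S b) :
    (∃ b, b < n ∧ S b ∧ U b) ∨ ∃ b, b < n ∧ T b ∧ W b := by
  have sw : ∀ {A B : ℕ → Prop}, (∃ b, b < n ∧ A b ∧ B b) → ∃ b, b < n ∧ B b ∧ A b :=
    fun ⟨b, h1, h2, h3⟩ => ⟨b, h1, h3, h2⟩
  obtain ⟨r, hr, hr1, hr2⟩ := exists_root (n := n) (S := S) (hST.imp fun b h => ⟨h.1, h.2.1⟩)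
  obtain ⟨s, hs, hs1, hs2⟩ := exists_root (n := n) (S := T) (hST.imp fun b h => ⟨h.1, h.2.2⟩)
  obtain ⟨t, ht, ht1, ht2⟩ := exists_root (n := n) (S := U) (hTU.imp fun b h => ⟨h.1, h.2.2⟩)
  obtain ⟨u, hu, hu1, hu2⟩ := exists_root (n := n) (S := W) (hUW.imp fun b h => ⟨h.1, h.2.2⟩)
  rcases (by omega : (s ≤ r ∧ u ≤ r) ∨ (s ≤ t ∧ u ≤ t) ∨ (r ≤ s ∧ t ≤ s) ∨ (r ≤ u ∧ t ≤ u)) with
    ⟨h1, h2⟩ | ⟨h1, h2⟩ | ⟨h1, h2⟩ | ⟨h1, h2⟩
  · exact Or.inr ⟨r, hr, root_mem h0 hT hS (sw hST) hr1 hr2 hs1 h1,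
      root_mem h0 hW hS hWS hr1 hr2 hu1 h2⟩
  · exact Or.inr ⟨t, ht, root_mem h0 hT hU hTU ht1 ht2 hs1 h1,
      root_mem h0 hW hU (sw hUW) ht1 ht2 hu1 h2⟩
  · exact Or.inl ⟨s, hs, root_mem h0 hS hT hST hs1 hs2 hr1 h1,
      root_mem h0 hU hT (sw hTU) hs1 hs2 ht1 h2⟩
  · exact Or.inl ⟨u, hu, root_mem h0 hS hW (sw hWS) hu1 hu2 hr1 h1,
      root_mem h0 hU hW hUW hu1 hu2 ht1 h2⟩

end

section

variable {V E : Type} [Fintype V] [DecidableEq V] [Fintype E] [DecidableEq E]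

theorem core {src dst : E → V} {n : ℕ} {par : ℕ → ℕ} {B : ℕ → Finset V}
    (h0 : ∀ i, 0 < i → i < n → par i < i)
    (h1 : ∀ e, ∃ i, i < n ∧ src e ∈ B i ∧ dst e ∈ B i)
    (h2 : ∀ i j v, j < i → i < n → v ∈ B i → v ∈ B j → v ∈ B (par i))
    (h3 : ∀ i, i < n → (B i).card ≤ 5) {a b c d : V} (hnd : [a, b, c, d].Nodup)
    (hab : ∃ i, i < n ∧ a ∈ B i ∧ b ∈ B i) (hbc : ∃ i, i < n ∧ b ∈ B i ∧ c ∈ B i)
    (hcd : ∃ i, i < n ∧ c ∈ B i ∧ d ∈ B i) (hda : ∃ i, i < n ∧ d ∈ B i ∧ a ∈ B i)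
    (hac : ∃ i, i < n ∧ a ∈ B i ∧ c ∈ B i) (ρ : V → V) (hρc : ρ c = a) (hρd : ρ d = b)
    (hρ : ∀ z, z ≠ c → z ≠ d → ρ z = z) : HasTD 5 (ρ ∘ src) (ρ ∘ dst) := by
  classical
  simp only [List.nodup_cons, List.mem_cons, List.not_mem_nil, or_false, not_or, List.nodup_nil,
    and_true, not_false_eq_true] at hnd
  obtain ⟨⟨nab, nac, nad⟩, ⟨nbc, nbd⟩, ncd⟩ := hnd
  have hρa : ρ a = a := hρ a nac nad
  have hρb : ρ b = b := hρ b nbc nbd
  have con : ∀ v, Con n par fun i => v ∈ B i := fun v i j hji hi hv hv' => h2 i j v hji hi hv hv'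
  let B' : ℕ → Finset V := fun i => (B i).image ρ ∪ (if a ∈ B i ∧ c ∈ B i then {b} else ∅)
  have hB' : ∀ i, B' i = (B i).image ρ ∪ (if a ∈ B i ∧ c ∈ B i then {b} else ∅) := fun i => rfl
  have mo : ∀ v, v ≠ a → v ≠ b → v ≠ c → v ≠ d → ∀ i, v ∈ B' i ↔ v ∈ B i := by
    intro v va vb vc vd i
    rw [hB', mem_union, mem_image]
    constructor
    · rintro (⟨z, hz, hzv⟩ | h)
      · by_cases hc : z = c
        · rw [hc, hρc] at hzv; exact absurd hzv.symm va
        · by_cases hd : z = d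
          · rw [hd, hρd] at hzv; exact absurd hzv.symm vb
          · rw [hρ z hc hd] at hzv; rw [← hzv]; exact hz
      · split_ifs at h with hh
        · exact absurd (mem_singleton.1 h) vb
        · exact absurd h (notMem_empty _)
    · intro h
      exact Or.inl ⟨v, h, hρ v vc vd⟩
  have ma : ∀ i, a ∈ B' i ↔ a ∈ B i ∨ c ∈ B i := by
    intro i
    rw [hB', mem_union, mem_image]
    constructor
    · rintro (⟨z, hz, hzv⟩ | h)
      · by_cases hc : z = c
        · rw [hc] at hz; exact Or.inr hz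
        · by_cases hd : z = d
          · rw [hd, hρd] at hzv; exact absurd hzv.symm nab
          · rw [hρ z hc hd] at hzv; rw [hzv] at hz; exact Or.inl hz
      · split_ifs at h with hh
        · exact Or.inl hh.1
        · exact absurd h (notMem_empty _)
    · rintro (h | h)
      · exact Or.inl ⟨a, h, hρa⟩
      · exact Or.inl ⟨c, h, hρc⟩
  have mb : ∀ i, b ∈ B' i ↔ (b ∈ B i ∨ (a ∈ B i ∧ c ∈ B i)) ∨ d ∈ B i := by
    intro i
    rw [hB', mem_union, mem_image]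
    constructor
    · rintro (⟨z, hz, hzv⟩ | h)
      · by_cases hc : z = c
        · rw [hc, hρc] at hzv; exact absurd hzv nab
        · by_cases hd : z = d
          · rw [hd] at hz; exact Or.inr hz
          · rw [hρ z hc hd] at hzv; rw [hzv] at hz; exact Or.inl (Or.inl hz)
      · split_ifs at h with hh
        · exact Or.inl (Or.inr hh)
        · exact absurd h (notMem_empty _)
    · rintro ((h | h) | h)
      · exact Or.inl ⟨b, h, hρb⟩
      · right; rw [if_pos h]; exact mem_singleton_self b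
      · exact Or.inl ⟨d, h, hρd⟩
  have mc : ∀ i, c ∉ B' i := by
    intro i h
    rw [hB', mem_union, mem_image] at h
    rcases h with ⟨z, hz, hzv⟩ | h
    · by_cases hc : z = c
      · rw [hc, hρc] at hzv; exact nac hzv
      · by_cases hd : z = d
        · rw [hd, hρd] at hzv; exact nbc hzv
        · rw [hρ z hc hd] at hzv; exact hc hzv
    · split_ifs at h with hh
      · exact nbc (mem_singleton.1 h).symm
      · exact absurd h (notMem_empty _)
  have md : ∀ i, d ∉ B' i := by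
    intro i h
    rw [hB', mem_union, mem_image] at h
    rcases h with ⟨z, hz, hzv⟩ | h
    · by_cases hc : z = c
      · rw [hc, hρc] at hzv; exact nad hzv
      · by_cases hd : z = d
        · rw [hd, hρd] at hzv; exact nbd hzv
        · rw [hρ z hc hd] at hzv; exact hd hzv
    · split_ifs at h with hh
      · exact nbd (mem_singleton.1 h).symm
      · exact absurd h (notMem_empty _)
  have cona : Con n par fun i => a ∈ B i ∨ c ∈ B i := (con a).union h0 (con c) hac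
  have con1 : Con n par fun i => b ∈ B i ∨ (a ∈ B i ∧ c ∈ B i) := by
    refine (con b).union h0 ((con a).inter (con c)) ?_
    obtain ⟨i, hi, g1, g2, g3⟩ := helly h0 (con a) (con b) (con c) hab hbc hac
    exact ⟨i, hi, g2, g1, g3⟩
  have conb : Con n par fun i => (b ∈ B i ∨ (a ∈ B i ∧ c ∈ B i)) ∨ d ∈ B i := by
    refine con1.union h0 (con d) ?_
    obtain ⟨i, hi, g1, g2, g3⟩ := helly h0 (con a) (con c) (con d) hac hcd
      (hda.imp fun i h => ⟨h.1, h.2.2, h.2.1⟩)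
    exact ⟨i, hi, Or.inr ⟨g1, g2⟩, g3⟩
  refine ⟨n, par, B', h0, fun e => ?_, ?_, fun i hi => ?_⟩
  · obtain ⟨i, hi, g1, g2⟩ := h1 e
    exact ⟨i, hi, mem_union_left _ (mem_image_of_mem ρ g1), mem_union_left _ (mem_image_of_mem ρ g2)⟩
  · intro i j v hji hi hv hv'
    by_cases va : v = a
    · rw [va, ma] at hv hv' ⊢
      exact cona i j hji hi hv hv'
    · by_cases vb : v = b
      · rw [vb, mb] at hv hv' ⊢
        exact conb i j hji hi hv hv'
      · have vc : v ≠ c := fun h => mc i (h ▸ hv)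
        have vd : v ≠ d := fun h => md i (h ▸ hv)
        rw [mo v va vb vc vd] at hv hv' ⊢
        exact h2 i j v hji hi hv hv'
  · rw [hB']
    split_ifs with hh
    · have e1 : (B i).image ρ = ((B i).erase c).image ρ := by
        ext z
        rw [mem_image, mem_image]
        constructor
        · rintro ⟨y, hy, rfl⟩
          by_cases hyc : y = c
          · exact ⟨a, mem_erase.2 ⟨nac, hh.1⟩, by rw [hρa, hyc, hρc]⟩
          · exact ⟨y, mem_erase.2 ⟨hyc, hy⟩, rfl⟩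
        · rintro ⟨y, hy, rfl⟩
          exact ⟨y, mem_of_mem_erase hy, rfl⟩
      have e2 : ((B i).erase c).card = (B i).card - 1 := card_erase_of_mem hh.2
      have e3 := h3 i hi
      have e4 : 0 < (B i).card := card_pos.2 ⟨a, hh.1⟩
      calc ((B i).image ρ ∪ {b}).card ≤ ((B i).image ρ).card + 1 := by
            refine (card_union_le _ _).trans ?_
            rw [card_singleton]
        _ ≤ ((B i).erase c).card + 1 := by
            rw [e1]
            exact Nat.add_le_add_right card_image_le 1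
        _ ≤ 5 := by omega
    · rw [union_empty]
      exact card_image_le.trans (h3 i hi)

end

/-- S4 -/
theorem s4 : S4 := by
  intro V E _ _ _ _ src dst hTD v0 v1 v2 v3 hnd a1 a2 a3 a4
  have hnd' := hnd
  simp only [List.nodup_cons, List.mem_cons, List.not_mem_nil, or_false, not_or, List.nodup_nil,
    and_true, not_false_eq_true] at hnd'
  obtain ⟨⟨n01, n02, n03⟩, ⟨n12, n13⟩, n23⟩ := hnd'
  obtain ⟨ρ, hρ⟩ : ∃ ρ : V → V, ρ = fun z => if z = v2 then v0 else if z = v3 then v1 else z :=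
    ⟨_, rfl⟩
  have r2 : ρ v2 = v0 := by rw [hρ]; exact if_pos rfl
  have r3 : ρ v3 = v1 := by rw [hρ]; simp only; rw [if_neg (Ne.symm n23)]; exact if_pos trivial
  have ro : ∀ z, z ≠ v2 → z ≠ v3 → ρ z = z := fun z g1 g2 => by
    rw [hρ]; simp only; rw [if_neg g1, if_neg g2]
  have r0 : ρ v0 = v0 := ro v0 n02 n03
  have r1 : ρ v1 = v1 := ro v1 n12 n13
  have h4 : HasTD 5 (ρ ∘ src) (ρ ∘ dst) := by
    obtain ⟨n, par, B, h0, h1, h2, h3⟩ := hTD
    have con : ∀ v, Con n par fun i => v ∈ B i := fun v i j hji hi hv hv' =>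
      h2 i j v hji hi hv hv'
    have ad : ∀ {x y : V}, Ad src dst x y → ∃ i, i < n ∧ x ∈ B i ∧ y ∈ B i := by
      rintro x y ⟨_, e, he⟩
      obtain ⟨i, hi, g1, g2⟩ := h1 e
      rcases he with ⟨e1, e2⟩ | ⟨e1, e2⟩
      · rw [e1] at g1; rw [e2] at g2; exact ⟨i, hi, g1, g2⟩
      · rw [e1] at g1; rw [e2] at g2; exact ⟨i, hi, g2, g1⟩
    rcases chord h0 (con v0) (con v1) (con v2) (con v3) (ad a1) (ad a2) (ad a3) (ad a4) with h | h
    · exact core h0 h1 h2 h3 hnd (ad a1) (ad a2) (ad a3) (ad a4) h ρ r2 r3 ro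
    · refine core h0 h1 h2 h3 (a := v1) (b := v0) (c := v3) (d := v2) ?_ (ad a1.symm) (ad a4.symm)
        (ad a3.symm) (ad a2.symm) h ρ r3 r2 (fun z g1 g2 => ro z g2 g1)
      simp only [List.nodup_cons, List.mem_cons, List.not_mem_nil, or_false, not_or, List.nodup_nil,
        and_true, not_false_eq_true]
      exact ⟨⟨Ne.symm n01, n13, n12⟩, ⟨n03, n02⟩, Ne.symm n23⟩
  refine ⟨ρ, ?_, ?_, r0, r2, r1, r3, ?_⟩
  · intro z hz
    simp only [mem_insert, mem_singleton, not_or] at hz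
    exact ro z hz.2.2.1 hz.2.2.2
  · intro z hz
    simp only [mem_insert, mem_singleton] at hz
    rcases hz with rfl | rfl | rfl | rfl
    · exact Or.inl r0
    · exact Or.inr r1
    · exact Or.inl r2
    · exact Or.inr r3
  · obtain ⟨_, e, he⟩ := a1
    refine td_option h4 (e := e) ?_
    rcases he with ⟨e1, e2⟩ | ⟨e1, e2⟩
    · left; simp only [Function.comp, e1, e2, r0, r1, and_self]
    · right; simp only [Function.comp, e1, e2, r0, r1, and_self]

end Pool.Agent.TH70.SC4
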