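import Pool.Agent.TH45.SC4.S7

set_option autoImplicit false
set_option linter.unusedSectionVars false
set_option linter.unusedVariables false

/-! # The configurations h23 and c1: small cuts and all replacements -/

namespace Pool.Agent.TH70.SC4

open Finset
open Pool.Agent.Helper347.Sab (MGraph dg IsCircuit IsCubic IsCDC)
open Pool.Agent.H10R3.SC (cut ins tou Cr)
open Pool.Agent.TH499.TF (Joins Ad N3 Dbl G5 NoC HasTD Grow grow_list)
open Pool.Agent.TH462.SC

section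

variable {V E : Type} [Fintype V] [DecidableEq V] [Fintype E] [DecidableEq E]

/-- every member of the list but the first is joined to an earlier one -/
def Conn {N m : ℕ} (p q : Fin m → Fin N) (L : List (Fin N)) : Prop :=
  L.Nodup ∧ L ≠ [] ∧ ∀ i : Fin L.length, 0 < i.1 → ∃ j : Fin L.length, j < i ∧
    ∃ e, (p e = L[i] ∧ q e = L[j]) ∨ (q e = L[i] ∧ p e = L[j])

instance {N m : ℕ} (p q : Fin m → Fin N) (L : List (Fin N)) : Decidable (Conn p q L) := by
  unfold Conn; infer_instance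

theorem Conn.grow {N m : ℕ} {p q : Fin m → Fin N} {L : List (Fin N)} (h : Conn p q L)
    {src dst : E → V} {l : Fin N → V} (hl : Function.Injective l)
    (ha : ∀ k, Ad src dst (l (p k)) (l (q k))) : Grow src dst (L.toFinset.image l) := by
  have h1 : L.toFinset.image l = (L.map l).toFinset := by
    ext z
    simp only [mem_image, List.mem_toFinset, List.mem_map]
  rw [h1]
  refine grow_list (h.1.map hl) (by simpa using h.2.1) ?_
  intro i hi h0
  rw [List.length_map] at hi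
  obtain ⟨j, hj, e, he⟩ := h.2.2 ⟨i, hi⟩ h0
  refine ⟨j.1, hj, ?_⟩
  rw [List.getElem_map, List.getElem_map]
  rcases he with ⟨e1, e2⟩ | ⟨e1, e2⟩
  · have := ha e
    rw [e1, e2] at this
    exact this
  · have := (ha e).symm
    rw [e1, e2] at this
    exact this

/-- the three pairings of four legs -/
def side (k : Fin 3) (i : Fin 4) : Bool := decide (i = 0 ∨ i.1 = k.1 + 1)

theorem pairing : ∀ i1 i2 i3 i4 : Fin 4, i1 ≠ i2 → i1 ≠ i3 → i1 ≠ i4 → i2 ≠ i3 → i2 ≠ i4 → i3 ≠ i4 →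
    ∃ k : Fin 3, side k i1 = side k i2 ∧ side k i3 = side k i4 ∧ side k i1 ≠ side k i3 := by
  decide

theorem rich_gen {N m : ℕ} (p q : Fin m → Fin N) (t : Fin 4 → Fin N)
    (LA LB : Fin 3 → List (Fin N)) (hcA : ∀ k, Conn p q (LA k)) (hcB : ∀ k, Conn p q (LB k))
    (hd : ∀ k, ∀ i ∈ LA k, i ∉ LB k) (hu : ∀ k, ∀ i, i ∈ LA k ∨ i ∈ LB k)
    (hadj : ∀ k, ∃ e, (p e ∈ LA k ∧ q e ∈ LB k) ∨ (q e ∈ LA k ∧ p e ∈ LB k))
    (hm : ∀ k i, (side k i = true → t i ∈ LA k) ∧ (side k i = false → t i ∈ LB k))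
    (h3 : S3) {src dst : E → V} (hTD : HasTD 5 src dst) {l : Fin N → V}
    (hl : Function.Injective l) (ha : ∀ k, Ad src dst (l (p k)) (l (q k))) (X : Finset V)
    (hX : X = univ.image l)
    (hleg : ∀ i, (∃ z, z ∉ X ∧ Ad src dst (l i) z) → ∃ j : Fin 4, i = t j) :
    Rich src dst X := by
  -- the parts
  have hdis : ∀ k, Disjoint ((LA k).toFinset.image l) ((LB k).toFinset.image l) := by
    intro k
    rw [disjoint_left]
    intro z hz hz'
    simp only [mem_image, List.mem_toFinset] at hz hz'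
    obtain ⟨i, hi, rfl⟩ := hz
    obtain ⟨j, hj, hij⟩ := hz'
    rw [hl hij] at hj
    exact hd k i hi hj
  have hun : ∀ k, X = (LA k).toFinset.image l ∪ (LB k).toFinset.image l := by
    intro k
    rw [hX, ← image_union]
    congr 1
    ext i
    simp only [mem_univ, mem_union, List.mem_toFinset, true_iff]
    exact hu k i
  have hmA : ∀ k i, i ∈ LA k → l i ∈ (LA k).toFinset.image l := fun k i hi =>
    mem_image_of_mem l (List.mem_toFinset.2 hi)
  have hmB : ∀ k i, i ∈ LB k → l i ∈ (LB k).toFinset.image l := fun k i hi =>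
    mem_image_of_mem l (List.mem_toFinset.2 hi)
  have hAB : ∀ k, ∀ a b c d, a ∈ LA k → b ∈ LA k → c ∈ LB k → d ∈ LB k →
      GadTD src dst X (l a) (l b) (l c) (l d) ∧ GadTD src dst X (l c) (l d) (l a) (l b) := by
    intro k a b c d h1 h2 h4 h5
    obtain ⟨u, v, hu1, hv1, huv⟩ : ∃ u v, u ∈ (LA k).toFinset.image l ∧
        v ∈ (LB k).toFinset.image l ∧ Ad src dst u v := by
      obtain ⟨e, ⟨e1, e2⟩ | ⟨e1, e2⟩⟩ := hadj k
      · exact ⟨_, _, hmA k _ e1, hmB k _ e2, ha e⟩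
      · exact ⟨_, _, hmA k _ e1, hmB k _ e2, (ha e).symm⟩
    constructor
    · exact h3 V E src dst hTD _ _ X _ _ _ _ u v ((hcA k).grow hl ha) ((hcB k).grow hl ha)
        (hdis k) (hun k) (hmA k _ h1) (hmA k _ h2) (hmB k _ h4) (hmB k _ h5) hu1 hv1 huv
    · exact h3 V E src dst hTD _ _ X _ _ _ _ v u ((hcB k).grow hl ha) ((hcA k).grow hl ha)
        (hdis k).symm (by rw [union_comm]; exact hun k) (hmB k _ h4) (hmB k _ h5) (hmA k _ h1)
        (hmA k _ h2) hv1 hu1 huv.symm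
  intro a b c d hnd hmem
  have hlab : ∀ w ∈ [a, b, c, d], ∃ j : Fin 4, w = l (t j) := by
    intro w hw
    obtain ⟨h1, h2⟩ := hmem w hw
    rw [hX, mem_image] at h1
    obtain ⟨i, -, rfl⟩ := h1
    obtain ⟨j, rfl⟩ := hleg i h2
    exact ⟨j, rfl⟩
  obtain ⟨i1, rfl⟩ := hlab a (by simp)
  obtain ⟨i2, rfl⟩ := hlab b (by simp)
  obtain ⟨i3, rfl⟩ := hlab c (by simp)
  obtain ⟨i4, rfl⟩ := hlab d (by simp)
  simp only [List.nodup_cons, List.mem_cons, List.not_mem_nil, or_false, not_or, List.nodup_nil,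
    and_true, not_false_eq_true] at hnd
  obtain ⟨⟨n1, n2, n3⟩, ⟨n4, n5⟩, n6⟩ := hnd
  obtain ⟨k, k1, k2, k3⟩ := pairing i1 i2 i3 i4 (fun h => n1 (by rw [h])) (fun h => n2 (by rw [h]))
    (fun h => n3 (by rw [h])) (fun h => n4 (by rw [h])) (fun h => n5 (by rw [h]))
    (fun h => n6 (by rw [h]))
  cases hs : side k i1 with
  | true =>
    have hs2 : side k i2 = true := by rw [← k1, hs]
    have hs3 : side k i3 = false := by
      cases h : side k i3 with
      | false => rfl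
      | true => exact absurd (hs.trans h.symm) k3
    have hs4 : side k i4 = false := by rw [← k2, hs3]
    exact (hAB k _ _ _ _ ((hm k i1).1 hs) ((hm k i2).1 hs2) ((hm k i3).2 hs3)
      ((hm k i4).2 hs4)).1
  | false =>
    have hs2 : side k i2 = false := by rw [← k1, hs]
    have hs3 : side k i3 = true := by
      cases h : side k i3 with
      | true => rfl
      | false => exact absurd (hs.trans h.symm) k3
    have hs4 : side k i4 = true := by rw [← k2, hs3]
    exact (hAB k _ _ _ _ ((hm k i3).1 hs3) ((hm k i4).1 hs4) ((hm k i1).2 hs)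
      ((hm k i2).2 hs2)).2

end

/-- S7a -/
theorem s7a (h3 : S3) : S7a := by
  intro V E _ _ _ _ G src dst hG hE hTD x y a b c d x' y' hnd hx hy
  have hinj : Function.Injective (![x, y, a, b, c, d, x', y'] : Fin 8 → V) := by
    rw [← List.nodup_ofFn]; exact hnd
  have hX : ({x, y, a, b, c, d, x', y'} : Finset V) =
      univ.image (![x, y, a, b, c, d, x', y'] : Fin 8 → V) := by
    ext z
    simp only [mem_insert, mem_singleton, mem_image, mem_univ, true_and]
    constructor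
    · rintro (rfl | rfl | rfl | rfl | rfl | rfl | rfl | rfl)
      exacts [⟨0, rfl⟩, ⟨1, rfl⟩, ⟨2, rfl⟩, ⟨3, rfl⟩, ⟨4, rfl⟩, ⟨5, rfl⟩, ⟨6, rfl⟩, ⟨7, rfl⟩]
    · rintro ⟨i, rfl⟩
      fin_cases i <;> simp
  have ha : ∀ k : Fin 10, Ad src dst ((![x, y, a, b, c, d, x', y'] : Fin 8 → V)
      ((![0, 0, 0, 1, 1, 6, 6, 6, 7, 7] : Fin 10 → Fin 8) k))
      ((![x, y, a, b, c, d, x', y'] : Fin 8 → V)
      ((![1, 2, 3, 4, 5, 7, 2, 4, 3, 5] : Fin 10 → Fin 8) k)) := by
    intro k; fin_cases k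
    · exact (hx.1 _).mpr (Or.inl rfl)
    · exact (hx.1 _).mpr (Or.inr (Or.inl rfl))
    · exact (hx.1 _).mpr (Or.inr (Or.inr rfl))
    · exact (hx.2 _).mpr (Or.inr (Or.inl rfl))
    · exact (hx.2 _).mpr (Or.inr (Or.inr rfl))
    · exact (hy.1 _).mpr (Or.inl rfl)
    · exact (hy.1 _).mpr (Or.inr (Or.inl rfl))
    · exact (hy.1 _).mpr (Or.inr (Or.inr rfl))
    · exact (hy.2 _).mpr (Or.inr (Or.inl rfl))
    · exact (hy.2 _).mpr (Or.inr (Or.inr rfl))
  constructor
  · have h := Pool.Agent.TH45.SC4.cut_bound G src dst hG hE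
      (![0, 0, 0, 1, 1, 6, 6, 6, 7, 7] : Fin 10 → Fin 8) ![1, 2, 3, 4, 5, 7, 2, 4, 3, 5]
      (by decide) hinj ha _ hX
    omega
  · refine rich_gen (![0, 0, 0, 1, 1, 6, 6, 6, 7, 7] : Fin 10 → Fin 8)
      ![1, 2, 3, 4, 5, 7, 2, 4, 3, 5] ![2, 3, 4, 5]
      ![[0, 2, 3, 6], [6, 2, 4, 0], [2, 0, 1, 5]]
      ![[1, 4, 5, 7], [7, 3, 5, 1], [3, 7, 6, 4]]
      (by decide) (by decide) (by decide) (by decide) (by decide) (by decide) h3 hTD hinj ha _ hX ?_
    have hin : ∀ i, (![x, y, a, b, c, d, x', y'] : Fin 8 → V) i ∈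
        ({x, y, a, b, c, d, x', y'} : Finset V) := by
      intro i; rw [hX]; exact mem_image_of_mem _ (mem_univ _)
    rintro i ⟨z, hz, hi⟩
    fin_cases i
    · rcases (hx.1 z).mp hi with rfl | rfl | rfl
      · exact absurd (hin 1) hz
      · exact absurd (hin 2) hz
      · exact absurd (hin 3) hz
    · rcases (hx.2 z).mp hi with rfl | rfl | rfl
      · exact absurd (hin 0) hz
      · exact absurd (hin 4) hz
      · exact absurd (hin 5) hz
    · exact ⟨0, rfl⟩
    · exact ⟨1, rfl⟩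
    · exact ⟨2, rfl⟩
    · exact ⟨3, rfl⟩
    · rcases (hy.1 z).mp hi with rfl | rfl | rfl
      · exact absurd (hin 7) hz
      · exact absurd (hin 2) hz
      · exact absurd (hin 4) hz
    · rcases (hy.2 z).mp hi with rfl | rfl | rfl
      · exact absurd (hin 6) hz
      · exact absurd (hin 3) hz
      · exact absurd (hin 5) hz

/-- S7b -/
theorem s7b (h3 : S3) : S7b := by
  intro V E _ _ _ _ G src dst hG hE hTD u v x1 x2 y1 y2 i i' j j' hnd hu hv hx hy
  have hinj : Function.Injective (![u, v, x1, x2, y1, y2, i, i', j, j'] : Fin 10 → V) := by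
    rw [← List.nodup_ofFn]; exact hnd
  have hX : ({u, v, x1, x2, y1, y2, i, i', j, j'} : Finset V) =
      univ.image (![u, v, x1, x2, y1, y2, i, i', j, j'] : Fin 10 → V) := by
    ext z
    simp only [mem_insert, mem_singleton, mem_image, mem_univ, true_and]
    constructor
    · rintro (rfl | rfl | rfl | rfl | rfl | rfl | rfl | rfl | rfl | rfl)
      exacts [⟨0, rfl⟩, ⟨1, rfl⟩, ⟨2, rfl⟩, ⟨3, rfl⟩, ⟨4, rfl⟩, ⟨5, rfl⟩, ⟨6, rfl⟩, ⟨7, rfl⟩,
        ⟨8, rfl⟩, ⟨9, rfl⟩]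
    · rintro ⟨k, rfl⟩
      fin_cases k <;> simp
  have ha : ∀ k : Fin 13, Ad src dst ((![u, v, x1, x2, y1, y2, i, i', j, j'] : Fin 10 → V)
      ((![0, 0, 0, 1, 1, 2, 2, 3, 3, 4, 4, 5, 5] : Fin 13 → Fin 10) k))
      ((![u, v, x1, x2, y1, y2, i, i', j, j'] : Fin 10 → V)
      ((![1, 2, 4, 6, 7, 8, 3, 6, 9, 9, 5, 7, 8] : Fin 13 → Fin 10) k)) := by
    intro k; fin_cases k
    · exact (hu _).mpr (Or.inl rfl)
    · exact (hu _).mpr (Or.inr (Or.inl rfl))
    · exact (hu _).mpr (Or.inr (Or.inr rfl))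
    · exact (hv _).mpr (Or.inr (Or.inl rfl))
    · exact (hv _).mpr (Or.inr (Or.inr rfl))
    · exact (hx.1 _).mpr (Or.inr (Or.inr rfl))
    · exact (hx.1 _).mpr (Or.inl rfl)
    · exact (hx.2 _).mpr (Or.inr (Or.inl rfl))
    · exact (hx.2 _).mpr (Or.inr (Or.inr rfl))
    · exact (hy.1 _).mpr (Or.inr (Or.inr rfl))
    · exact (hy.1 _).mpr (Or.inl rfl)
    · exact (hy.2 _).mpr (Or.inr (Or.inl rfl))
    · exact (hy.2 _).mpr (Or.inr (Or.inr rfl))
  constructor
  · have h := Pool.Agent.TH45.SC4.cut_bound G src dst hG hE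
      (![0, 0, 0, 1, 1, 2, 2, 3, 3, 4, 4, 5, 5] : Fin 13 → Fin 10)
      ![1, 2, 4, 6, 7, 8, 3, 6, 9, 9, 5, 7, 8]
      (by decide) hinj ha _ hX
    omega
  · refine rich_gen (![0, 0, 0, 1, 1, 2, 2, 3, 3, 4, 4, 5, 5] : Fin 13 → Fin 10)
      ![1, 2, 4, 6, 7, 8, 3, 6, 9, 9, 5, 7, 8] ![6, 7, 8, 9]
      ![[6, 1, 7, 0, 5, 4], [6, 3, 2, 8, 0, 1], [6, 3, 9, 2, 0, 1]]
      ![[8, 2, 3, 9], [7, 5, 4, 9], [7, 5, 8, 4]]
      (by decide) (by decide) (by decide) (by decide) (by decide) (by decide) h3 hTD hinj ha _ hX ?_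
    have hin : ∀ k, (![u, v, x1, x2, y1, y2, i, i', j, j'] : Fin 10 → V) k ∈
        ({u, v, x1, x2, y1, y2, i, i', j, j'} : Finset V) := by
      intro k; rw [hX]; exact mem_image_of_mem _ (mem_univ _)
    rintro k ⟨z, hz, hi⟩
    fin_cases k
    · rcases (hu z).mp hi with rfl | rfl | rfl
      · exact absurd (hin 1) hz
      · exact absurd (hin 2) hz
      · exact absurd (hin 4) hz
    · rcases (hv z).mp hi with rfl | rfl | rfl
      · exact absurd (hin 0) hz
      · exact absurd (hin 6) hz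
      · exact absurd (hin 7) hz
    · rcases (hx.1 z).mp hi with rfl | rfl | rfl
      · exact absurd (hin 3) hz
      · exact absurd (hin 0) hz
      · exact absurd (hin 8) hz
    · rcases (hx.2 z).mp hi with rfl | rfl | rfl
      · exact absurd (hin 2) hz
      · exact absurd (hin 6) hz
      · exact absurd (hin 9) hz
    · rcases (hy.1 z).mp hi with rfl | rfl | rfl
      · exact absurd (hin 5) hz
      · exact absurd (hin 0) hz
      · exact absurd (hin 9) hz
    · rcases (hy.2 z).mp hi with rfl | rfl | rfl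
      · exact absurd (hin 4) hz
      · exact absurd (hin 7) hz
      · exact absurd (hin 8) hz
    · exact ⟨0, rfl⟩
    · exact ⟨1, rfl⟩
    · exact ⟨2, rfl⟩
    · exact ⟨3, rfl⟩

end Pool.Agent.TH70.SC4
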