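import Pool.Agent.TH462.SC.Cuts
import Pool.Agent.TH462.SC.S7
import Pool.Agent.TH455.SC4.S2
import Pool.Agent.TH70.SC4.S7ab
import Pool.Agent.TH70.SC4.S4

set_option autoImplicit false

/-! # Strong circuit double covers of cubic graphs of treewidth at most four -/

namespace Pool.Agent.TH70.SC4

open Finset
open Pool.Agent.Helper347.Sab (MGraph dg IsCircuit IsCubic IsCDC)
open Pool.Agent.TH462.SC

/-- all pieces together -/
theorem all (V E : Type) [Fintype V] [DecidableEq V] [Fintype E] [DecidableEq E]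
    (G : MGraph V E) (hT : TWG G) (hG : IsCubic G)
    (hbr : ∀ e : E, ∃ X : Finset E, IsCircuit G X ∧ e ∈ X) (C : Finset E) (hC : IsCircuit G C) :
    ∃ F : Multiset (Finset E), IsCDC G F ∧ C ∈ F :=
  main Pool.Agent.TH45.SC4.s5 Pool.Agent.TH45.SC4.s6
    (s7 Pool.Agent.TH455.SC4.s2' (s7a s3) (s7b s3) Pool.Agent.TH45.SC4.s7c
      (Pool.Agent.TH45.SC4.s7d s3 s4)) _ V E G rfl hT hG hbr C hC

end Pool.Agent.TH70.SC4
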