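import Pool.Agent.TH45.SC4.S56

set_option autoImplicit false
set_option linter.unusedSectionVars false
set_option linter.unusedVariables false

/-! # Contraction of the two parts of a partition -/

namespace Pool.Agent.TH70.SC4

open Finset
open Pool.Agent.TH499.TF (Joins Ad N3 Dbl G5 NoC HasTD Grow Closed pw phi)
open Pool.Agent.TH462.SC

section

variable {V E : Type} [Fintype V] [DecidableEq V] [Fintype E] [DecidableEq E]

theorem grow_pw {src dst : E → V} {W : Finset V} (h : Grow src dst W) (A : Finset V) (a : V) :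
    Disjoint A W → Grow (pw A a ∘ src) (pw A a ∘ dst) W := by
  induction h with
  | one v => intro _; exact Grow.one v
  | add W v w e hW hv hw he ih =>
    intro hd
    have h1 : Disjoint A W := hd.mono_right (subset_insert _ _)
    have h2 : v ∉ A := fun h => (disjoint_left.1 hd h) (mem_insert_self _ _)
    have h3 : w ∉ A := fun h => (disjoint_left.1 hd h) (mem_insert_of_mem hw)
    refine Grow.add W v w e (ih h1) hv hw ?_
    have e1 : pw A a v = v := if_neg h2
    have e2 : pw A a w = w := if_neg h3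
    rcases he with ⟨h4, h5⟩ | ⟨h4, h5⟩
    · left; simp only [Function.comp, h4, h5, e1, e2, and_self]
    · right; simp only [Function.comp, h4, h5, e1, e2, and_self]

theorem td_perm {w : ℕ} {src dst : E → V} (σ : Equiv.Perm V) (h : HasTD w src dst) :
    HasTD w (σ ∘ src) (σ ∘ dst) := by
  obtain ⟨n, par, B, h0, h1, h2, h3⟩ := h
  refine ⟨n, par, fun i => (B i).image σ, h0, fun e => ?_, ?_, fun i hi => ?_⟩
  · obtain ⟨i, hi, h4, h5⟩ := h1 e
    exact ⟨i, hi, mem_image_of_mem σ h4, mem_image_of_mem σ h5⟩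
  · intro i j v hj hi hv hv'
    obtain ⟨u, hu, rfl⟩ := mem_image.1 hv
    obtain ⟨u', hu', he⟩ := mem_image.1 hv'
    have := σ.injective he
    subst this
    exact mem_image_of_mem σ (h2 i j _ hj hi hu hu')
  · exact card_image_le.trans (h3 i hi)

theorem td_option {w : ℕ} {src dst : E → V} (h : HasTD w src dst) {p r : V} {e : E}
    (he : Joins src dst e p r) :
    HasTD w (fun o : Option E => o.elim p src) (fun o : Option E => o.elim r dst) := by
  obtain ⟨n, par, B, h0, h1, h2, h3⟩ := h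
  refine ⟨n, par, B, h0, fun o => ?_, h2, h3⟩
  cases o with
  | some d => exact h1 d
  | none =>
    obtain ⟨i, hi, h4, h5⟩ := h1 e
    rcases he with ⟨e1, e2⟩ | ⟨e1, e2⟩
    · rw [e1] at h4; rw [e2] at h5; exact ⟨i, hi, h4, h5⟩
    · rw [e1] at h4; rw [e2] at h5; exact ⟨i, hi, h5, h4⟩

end

/-- S3 -/
theorem s3 : S3 := by
  intro V E _ _ _ _ src dst hTD A B X p q r s u v hA hB hAB hX hp hq hr hs hu hv huv
  have hC : Closed (fun src dst : E → V => HasTD 5 src dst) := Pool.Agent.TH45.SC4.td_closed 5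
  obtain ⟨a, ha, h1⟩ := hC.grow hA hTD
  obtain ⟨b, hb, h2⟩ := hC.grow (grow_pw hB A a hAB) h1
  have hnB : ∀ z, z ∈ A → z ∉ B := fun z hz => disjoint_left.1 hAB hz
  have hnA : ∀ z, z ∈ B → z ∉ A := fun z hz h => disjoint_left.1 hAB h hz
  obtain ⟨ρ, hρ⟩ : ∃ ρ : V → V, ρ = fun z => if z ∈ A then p else if z ∈ B then r else z := ⟨_, rfl⟩
  have hρA : ∀ z, z ∈ A → ρ z = p := fun z hz => by rw [hρ]; exact if_pos hz
  have hρB : ∀ z, z ∈ B → ρ z = r := fun z hz => by
    rw [hρ]; simp only; rw [if_neg (hnA z hz), if_pos hz]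
  have hρX : ∀ z, z ∉ X → ρ z = z := fun z hz => by
    rw [hX, mem_union, not_or] at hz
    rw [hρ]; simp only; rw [if_neg hz.1, if_neg hz.2]
  have hcomp : ∀ f : E → V, (Equiv.swap a p * Equiv.swap b r : Equiv.Perm V) ∘
      (pw B b ∘ pw A a ∘ f) = ρ ∘ f := by
    intro f
    funext e
    simp only [Function.comp]
    obtain ⟨z, hz⟩ : ∃ z, z = f e := ⟨_, rfl⟩
    rw [← hz, Equiv.Perm.mul_apply]
    by_cases hzA : z ∈ A
    · rw [hρA z hzA]
      have e1 : pw A a z = a := if_pos hzA
      have e2 : pw B b a = a := if_neg (hnB a ha)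
      rw [e1, e2, Equiv.swap_apply_of_ne_of_ne (a := b) (b := r) (x := a)
        (fun h => hnB a ha (h ▸ hb)) (fun h => hnB a ha (h ▸ hr)), Equiv.swap_apply_left]
    · have e1 : pw A a z = z := if_neg hzA
      rw [e1]
      by_cases hzB : z ∈ B
      · rw [hρB z hzB]
        have e2 : pw B b z = b := if_pos hzB
        have g1 : r ≠ a := fun h => hnA r hr (by rw [h]; exact ha)
        have g2 : r ≠ p := fun h => hnA r hr (by rw [h]; exact hp)
        rw [e2, Equiv.swap_apply_left, Equiv.swap_apply_of_ne_of_ne g1 g2]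
      · rw [hρX z (by rw [hX, mem_union, not_or]; exact ⟨hzA, hzB⟩)]
        have e2 : pw B b z = z := if_neg hzB
        have g1 : z ≠ a := fun h => hzA (by rw [h]; exact ha)
        have g2 : z ≠ p := fun h => hzA (by rw [h]; exact hp)
        have g3 : z ≠ b := fun h => hzB (by rw [h]; exact hb)
        have g4 : z ≠ r := fun h => hzB (by rw [h]; exact hr)
        rw [e2, Equiv.swap_apply_of_ne_of_ne g3 g4, Equiv.swap_apply_of_ne_of_ne g1 g2]
  have h4 : HasTD 5 (ρ ∘ src) (ρ ∘ dst) := by
    have h5 := td_perm (Equiv.swap a p * Equiv.swap b r) h2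
    rw [hcomp, hcomp] at h5
    exact h5
  refine ⟨ρ, hρX, ?_, hρA p hp, hρA q hq, hρB r hr, hρB s hs, ?_⟩
  · intro z hz
    rw [hX, mem_union] at hz
    rcases hz with h | h
    · exact Or.inl (hρA z h)
    · exact Or.inr (hρB z h)
  · obtain ⟨_, e, he⟩ := huv
    refine td_option h4 (e := e) ?_
    rcases he with ⟨e1, e2⟩ | ⟨e1, e2⟩
    · left; simp only [Function.comp, e1, e2, hρA u hu, hρB v hv, and_self]
    · right; simp only [Function.comp, e1, e2, hρA u hu, hρB v hv, and_self]

end Pool.Agent.TH70.SC4
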